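import Pool.Agent.Helper19.Un.D4Stmts

set_option autoImplicit false

/-!
# DISO : the orthogonal frame of the Eisenstein lattice `D4L`
-/

namespace Pool.Agent.Helper19.Un

open scoped ComplexConjugate

lemma diso_inner_re (x y : E 2) :
    (inner ℂ x y).re = (x 0).re * (y 0).re + (x 0).im * (y 0).im
      + ((x 1).re * (y 1).re + (x 1).im * (y 1).im) := by
  rw [PiLp.inner_apply, Fin.sum_univ_two, Complex.add_re]
  simp only [RCLike.inner_apply, Complex.mul_re, Complex.conj_re, Complex.conj_im]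
  ring

lemma diso_sq2 : Real.sqrt 2 * Real.sqrt 2 = 2 := Real.mul_self_sqrt (by norm_num)
lemma diso_sq3 : Real.sqrt 3 * Real.sqrt 3 = 3 := Real.mul_self_sqrt (by norm_num)

lemma diso_e0 : (eD 0) 0 = 0 ∧ (eD 0) 1 = ⟨0, Real.sqrt 2 * Real.sqrt 3 / 2⟩ := by
  refine ⟨by simp [eD], ?_⟩
  have h : (eD 0) 1 = (Real.sqrt 2 : ℂ) * th / 2 := by simp [eD]
  rw [h]
  apply Complex.ext
  · simp [th]
  · simp [th]

lemma diso_e1 : (eD 1) 0 = ⟨-1, 0⟩ ∧ (eD 1) 1 = ⟨Real.sqrt 2 / 2, 0⟩ := by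
  have h0 : (eD 1) 0 = -1 := by simp [eD]
  have h : (eD 1) 1 = (Real.sqrt 2 : ℂ) / 2 := by simp [eD]
  rw [h0, h]
  constructor <;> apply Complex.ext <;> simp

lemma diso_e2 : (eD 2) 0 = ⟨1 / 2, -(Real.sqrt 3 / 2)⟩ ∧ (eD 2) 1 = ⟨Real.sqrt 2 / 2, 0⟩ := by
  have h0 : (eD 2) 0 = -om := by simp [eD]
  have h : (eD 2) 1 = (Real.sqrt 2 : ℂ) / 2 := by simp [eD]
  rw [h0, h]
  constructor
  · apply Complex.ext
    · simp [om]; norm_num
    · simp [om]
  · apply Complex.ext <;> simp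

lemma diso_e3 : (eD 3) 0 = ⟨1 / 2, Real.sqrt 3 / 2⟩ ∧ (eD 3) 1 = ⟨Real.sqrt 2 / 2, 0⟩ := by
  have h0 : (eD 3) 0 = 1 + om := by simp [eD]
  have h : (eD 3) 1 = (Real.sqrt 2 : ℂ) / 2 := by simp [eD]
  rw [h0, h]
  constructor
  · apply Complex.ext
    · simp [om]; norm_num
    · simp [om]
  · apply Complex.ext <;> simp

lemma diso_x0 (ζ : E 2) : xc ζ 0 = 2 / 3 * (Real.sqrt 2 * Real.sqrt 3 / 2 * (ζ 1).im) := by
  unfold xc
  rw [diso_inner_re, diso_e0.1, diso_e0.2]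
  simp

lemma diso_x1 (ζ : E 2) : xc ζ 1 = 2 / 3 * (-(ζ 0).re + Real.sqrt 2 / 2 * (ζ 1).re) := by
  unfold xc
  rw [diso_inner_re, diso_e1.1, diso_e1.2]
  simp

lemma diso_x2 (ζ : E 2) : xc ζ 2 = 2 / 3 * (1 / 2 * (ζ 0).re - Real.sqrt 3 / 2 * (ζ 0).im
    + Real.sqrt 2 / 2 * (ζ 1).re) := by
  unfold xc
  rw [diso_inner_re, diso_e2.1, diso_e2.2]
  simp only []
  ring

lemma diso_x3 (ζ : E 2) : xc ζ 3 = 2 / 3 * (1 / 2 * (ζ 0).re + Real.sqrt 3 / 2 * (ζ 0).im
    + Real.sqrt 2 / 2 * (ζ 1).re) := by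
  unfold xc
  rw [diso_inner_re, diso_e3.1, diso_e3.2]
  simp only []
  ring

lemma diso_orth (i j : Fin 4) : (inner ℂ (eD i) (eD j)).re = if i = j then 3 / 2 else 0 := by
  have h2 := diso_sq2
  have h3 := diso_sq3
  fin_cases i <;> fin_cases j
  all_goals
    simp only [Fin.zero_eta, Fin.mk_one, Fin.reduceFinMk, diso_inner_re, diso_e0.1, diso_e0.2,
      diso_e1.1, diso_e1.2, diso_e2.1, diso_e2.2, diso_e3.1, diso_e3.2, Complex.zero_re,
      Complex.zero_im, if_true, Fin.reduceEq, if_false]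
  all_goals nlinarith [h2, h3]

lemma diso_exp (ζ : E 2) : ζ = ∑ i, xc ζ i • eD i := by
  have h2 := diso_sq2
  have h3 := diso_sq3
  ext j
  rw [Fin.sum_univ_four, diso_x0, diso_x1, diso_x2, diso_x3]
  fin_cases j
  · simp only [Fin.zero_eta, PiLp.add_apply, PiLp.smul_apply, diso_e0.1, diso_e1.1, diso_e2.1,
      diso_e3.1]
    apply Complex.ext
    · simp only [Complex.add_re, Complex.smul_re, smul_eq_mul, Complex.zero_re]
      ring
    · simp only [Complex.add_im, Complex.smul_im, smul_eq_mul, Complex.zero_im]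
      linear_combination (-(ζ 0).im / 3) * h3
  · simp only [Fin.mk_one, PiLp.add_apply, PiLp.smul_apply, diso_e0.2, diso_e1.2, diso_e2.2,
      diso_e3.2]
    apply Complex.ext
    · simp only [Complex.add_re, Complex.smul_re, smul_eq_mul]
      linear_combination (-(ζ 1).re / 2) * h2
    · simp only [Complex.add_im, Complex.smul_im, smul_eq_mul]
      linear_combination (-(ζ 1).im / 6 * (Real.sqrt 3 * Real.sqrt 3)) * h2
        - (ζ 1).im / 3 * h3

lemma diso_norm (ζ : E 2) : 2 / 3 * ‖ζ‖ ^ 2 = ∑ i, xc ζ i ^ 2 := by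
  have h2 := diso_sq2
  have h3 := diso_sq3
  have hn : ‖ζ‖ ^ 2 = (inner ℂ ζ ζ).re := by
    rw [inner_self_eq_norm_sq_to_K]
    norm_cast
  rw [hn, diso_inner_re, Fin.sum_univ_four, diso_x0, diso_x1, diso_x2, diso_x3]
  linear_combination (-(1 / 9) * (ζ 1).im ^ 2 * (Real.sqrt 3 * Real.sqrt 3)
    - 1 / 3 * (ζ 1).re ^ 2) * h2 + (-(2 / 9) * (ζ 1).im ^ 2 - 2 / 9 * (ζ 0).im ^ 2) * h3

lemma diso_sq_ne2 : Real.sqrt 2 ≠ 0 := by positivity
lemma diso_sq_ne3 : Real.sqrt 3 ≠ 0 := by positivity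

lemma diso_om2 : om * om = -1 - om := by
  have h3 := diso_sq3
  apply Complex.ext
  · simp only [om, Complex.mul_re, Complex.sub_re, Complex.neg_re, Complex.one_re]
    linear_combination (-1 / 4) * h3
  · simp only [om, Complex.mul_im, Complex.sub_im, Complex.neg_im, Complex.one_im]
    ring

lemma diso_th : th = 1 + 2 * om := by
  apply Complex.ext
  · simp [om, th]
    norm_num
  · simp [om, th]
    ring

lemma diso_coe (a b : ℝ) : ((a : ℂ) + b * om).re = a - b / 2 ∧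
    ((a : ℂ) + b * om).im = Real.sqrt 3 / 2 * b := by
  constructor
  · simp [om]; ring
  · simp [om]; ring

lemma diso_inj {a b c d : ℝ} (h : (a : ℂ) + b * om = c + d * om) : a = c ∧ b = d := by
  have h1 := congrArg Complex.re h
  have h2 := congrArg Complex.im h
  rw [(diso_coe a b).1, (diso_coe c d).1] at h1
  rw [(diso_coe a b).2, (diso_coe c d).2] at h2
  have hb : b = d := by
    have h3 : Real.sqrt 3 / 2 ≠ 0 := div_ne_zero diso_sq_ne3 (by norm_num)
    exact mul_left_cancel₀ h3 h2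
  subst hb
  exact ⟨by linarith, rfl⟩

lemma diso_mem (ζ : E 2) :
    ζ ∈ D4L ↔ ∃ n : Fin 4 → ℤ, (∀ i, xc ζ i = n i) ∧ Even (∑ i, n i) := by
  have h2 := diso_sq2
  have h3 := diso_sq3
  constructor
  · rintro ⟨X, ⟨p, q, hX⟩, Y, ⟨r, s, hY⟩, K, ⟨k, l, hK⟩, hd, h0, h1⟩
    have hd' : (((p - r : ℤ) : ℝ) : ℂ) + ((q - s : ℤ) : ℝ) * om
        = ((k - 2 * l : ℤ) : ℝ) + ((2 * k - l : ℤ) : ℝ) * om := by
      have e := hd
      rw [hX, hY, hK, diso_th] at e
      push_cast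
      linear_combination e + 2 * (l : ℂ) * diso_om2
    obtain ⟨e1, e2⟩ := diso_inj hd'
    have e1' : p - r = k - 2 * l := by exact_mod_cast e1
    have e2' : q - s = 2 * k - l := by exact_mod_cast e2
    have hp : p = r + k - 2 * l := by omega
    have hq : q = s + 2 * k - l := by omega
    have hXr : (ζ 0).re = (p : ℝ) - q / 2 ∧ (ζ 0).im = Real.sqrt 3 / 2 * q := by
      rw [h0, hX]
      have := diso_coe (p : ℝ) (q : ℝ)
      push_cast at this
      exact this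
    have hYr : (ζ 1).re = Real.sqrt 2 * ((r : ℝ) - s / 2) ∧
        (ζ 1).im = Real.sqrt 2 * (Real.sqrt 3 / 2 * s) := by
      rw [h1, hY]
      have := diso_coe (r : ℝ) (s : ℝ)
      push_cast at this
      rw [Complex.re_ofReal_mul, Complex.im_ofReal_mul, this.1, this.2]
      exact ⟨rfl, rfl⟩
    refine ⟨![s, l, r - s - k, r + k - l], ?_, ?_⟩
    · intro i
      fin_cases i
      · simp only [Fin.zero_eta, diso_x0, hYr.2, Matrix.cons_val_zero]
        linear_combination (1 / 6 * (s : ℝ) * (Real.sqrt 3 * Real.sqrt 3)) * h2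
          + 1 / 3 * (s : ℝ) * h3
      · simp only [Fin.mk_one, diso_x1, hYr.1, hXr.1, Matrix.cons_val_one, hp, hq]
        push_cast
        linear_combination (1 / 3 * ((r : ℝ) - s / 2)) * h2
      · simp only [Fin.reduceFinMk, diso_x2, hYr.1, hXr.1, hXr.2, hp, hq]
        have e : (![s, l, r - s - k, r + k - l] : Fin 4 → ℤ) 2 = r - s - k := rfl
        rw [e]
        push_cast
        linear_combination (1 / 3 * ((r : ℝ) - s / 2)) * h2
          - 1 / 6 * ((s : ℝ) + 2 * k - l) * h3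
      · simp only [Fin.reduceFinMk, diso_x3, hYr.1, hXr.1, hXr.2, hp, hq]
        have e : (![s, l, r - s - k, r + k - l] : Fin 4 → ℤ) 3 = r + k - l := rfl
        rw [e]
        push_cast
        linear_combination (1 / 3 * ((r : ℝ) - s / 2)) * h2
          + 1 / 6 * ((s : ℝ) + 2 * k - l) * h3
    · rw [Fin.sum_univ_four]
      have e : (![s, l, r - s - k, r + k - l] : Fin 4 → ℤ) 0
          + (![s, l, r - s - k, r + k - l] : Fin 4 → ℤ) 1
          + (![s, l, r - s - k, r + k - l] : Fin 4 → ℤ) 2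
          + (![s, l, r - s - k, r + k - l] : Fin 4 → ℤ) 3 = s + l + (r - s - k) + (r + k - l) :=
        rfl
      rw [e]
      exact ⟨r, by ring⟩
  · rintro ⟨n, hn, m, hm⟩
    rw [Fin.sum_univ_four] at hm
    have n0 := hn 0
    have n1 := hn 1
    have n2 := hn 2
    have n3 := hn 3
    rw [diso_x0] at n0
    rw [diso_x1] at n1
    rw [diso_x2] at n2
    rw [diso_x3] at n3
    have n3' : n 3 = 2 * m - n 0 - n 1 - n 2 := by omega
    rw [n3'] at n3
    push_cast at n3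
    -- s = n0, l = n1, r = m, k = m - n0 - n2
    refine ⟨((m + (m - n 0 - n 2) - 2 * n 1 : ℤ) : ℂ) +
        ((n 0 + 2 * (m - n 0 - n 2) - n 1 : ℤ) : ℂ) * om, ⟨_, _, rfl⟩,
      ((m : ℤ) : ℂ) + ((n 0 : ℤ) : ℂ) * om, ⟨_, _, rfl⟩,
      ((m - n 0 - n 2 : ℤ) : ℂ) + ((n 1 : ℤ) : ℂ) * om, ⟨_, _, rfl⟩, ?_, ?_, ?_⟩
    · rw [diso_th]
      push_cast
      linear_combination (-2 * ((n 1 : ℤ) : ℂ)) * diso_om2
    · have e := diso_coe ((m : ℝ) + (m - n 0 - n 2) - 2 * n 1)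
        ((n 0 : ℝ) + 2 * (m - n 0 - n 2) - n 1)
      push_cast at e
      push_cast
      apply Complex.ext
      · rw [e.1]
        linarith
      · rw [e.2]
        linear_combination (-(ζ 0).im / 3) * h3 + (Real.sqrt 3 / 2) * (n3 - n2)
    · have e := diso_coe (m : ℝ) (n 0 : ℝ)
      push_cast at e
      apply Complex.ext
      · rw [Complex.re_ofReal_mul, e.1]
        linear_combination (-(ζ 1).re / 2) * h2 + Real.sqrt 2 / 2 * (n1 + n2 + n3)
      · rw [Complex.im_ofReal_mul, e.2]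
        linear_combination (-(ζ 1).im / 6 * (Real.sqrt 3 * Real.sqrt 3)) * h2
          - (ζ 1).im / 3 * h3 + Real.sqrt 2 * Real.sqrt 3 / 2 * n0

theorem st_DISO : ST_DISO := ⟨diso_orth, diso_exp, diso_norm, diso_mem⟩

end Pool.Agent.Helper19.Un
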